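import Pool.Agent.H87.EBK.Stmts

/-!
# Row RCA of the board ebk
-/

namespace Pool.EBK

theorem rca (hHIG : HIG) : RCA := by
  intro a b z hab hz hv hvz
  refine hHIG a z b ⟨hab.1, hz.1, hz.2.1⟩ ⟨hab.2.1, hab.2.2, ?_⟩ hv (hvz.trans hv)
  rw [add_comm]
  exact hz.2.2

end Pool.EBK
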